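import Mathlib

set_option autoImplicit false

/-!
# A conjugacy class generating the group is not covered by two proper subgroups

For every group `G` (finite or not) and every `x ∈ G` with `G = ⟨x^G⟩` each covering of `x^G` by
proper subgroups has at least three members.  This is the case `p = 2` of Q1 and of Q2.
-/

namespace Pool.Agent.Results.MP_8885f1_al.PrimeTwo

open Subgroup

universe u

/-- The conjugacy class `x^G = {g⁻¹ x g : g ∈ G}`. -/
def conjClass {G : Type u} [Group G] (x : G) : Set G := Set.range fun g : G => g⁻¹ * x * g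

/-- `s` is a covering of `X`: a finite set of proper subgroups whose union contains `X`. -/
def IsCovering {G : Type u} [Group G] (s : Finset (Subgroup G)) (X : Set G) : Prop :=
  (∀ H ∈ s, H ≠ ⊤) ∧ ∀ y ∈ X, ∃ H ∈ s, y ∈ H

/-- `γ(X)`: the least number of members of a covering of `X`, and `⊤` if there is none. -/
noncomputable def gam {G : Type u} [Group G] (X : Set G) : ℕ∞ :=
  ⨅ (s : Finset (Subgroup G)) (_ : IsCovering s X), (s.card : ℕ∞)

theorem two {G : Type u} [Group G] {x : G} (hcl : closure (conjClass x) = ⊤)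
    (H₁ H₂ : Subgroup G) (h1 : H₁ ≠ ⊤) (h2 : H₂ ≠ ⊤)
    (hc : ∀ y ∈ conjClass x, y ∈ H₁ ∨ y ∈ H₂) : False := by
  have hconj : ∀ y ∈ conjClass x, ∀ g : G, g * y * g⁻¹ ∈ conjClass x := by
    rintro _ ⟨h, rfl⟩ g
    exact ⟨h * g⁻¹, by simp only; group⟩
  have hconj' : ∀ y ∈ conjClass x, ∀ g : G, g⁻¹ * y * g ∈ conjClass x := by
    intro y hy g
    simpa using hconj y hy g⁻¹
  set A : Set G := {y | y ∈ conjClass x ∧ y ∈ H₁ ∧ y ∉ H₂} with hA
  have hAne : ∃ a, a ∈ A := by
    by_contra hno
    push Not at hno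
    apply h2
    rw [eq_top_iff, ← hcl, closure_le]
    intro y hy
    by_contra hy2
    rcases hc y hy with h | h
    · exact hno y ⟨hy, h, hy2⟩
    · exact hy2 h
  set K : Subgroup G := closure A with hK
  have key : ∀ y ∈ conjClass x, ∀ a ∈ A, y * a * y⁻¹ ∈ K ∧ y⁻¹ * a * y ∈ K := by
    intro y hy a ha
    by_cases hy2 : y ∈ H₂
    · constructor
      · apply Subgroup.subset_closure
        have h3 : y * a * y⁻¹ ∉ H₂ := by
          intro h
          apply ha.2.2
          have : a = y⁻¹ * (y * a * y⁻¹) * y := by group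
          rw [this]
          exact H₂.mul_mem (H₂.mul_mem (H₂.inv_mem hy2) h) hy2
        have h4 := hconj a ha.1 y
        exact ⟨h4, (hc _ h4).resolve_right h3, h3⟩
      · apply Subgroup.subset_closure
        have h3 : y⁻¹ * a * y ∉ H₂ := by
          intro h
          apply ha.2.2
          have : a = y * (y⁻¹ * a * y) * y⁻¹ := by group
          rw [this]
          exact H₂.mul_mem (H₂.mul_mem hy2 h) (H₂.inv_mem hy2)
        have h4 := hconj' a ha.1 y
        exact ⟨h4, (hc _ h4).resolve_right h3, h3⟩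
    · have hyK : y ∈ K := Subgroup.subset_closure ⟨hy, (hc y hy).resolve_right hy2, hy2⟩
      have haK : a ∈ K := Subgroup.subset_closure ha
      exact ⟨K.mul_mem (K.mul_mem hyK haK) (K.inv_mem hyK),
        K.mul_mem (K.mul_mem (K.inv_mem hyK) haK) hyK⟩
  have key2 : ∀ y ∈ conjClass x, ∀ a ∈ K, y * a * y⁻¹ ∈ K ∧ y⁻¹ * a * y ∈ K := by
    intro y hy a ha
    have e1 : K ≤ K.comap (MulAut.conj y).toMonoidHom := by
      rw [hK, closure_le]
      intro z hz
      exact (key y hy z hz).1
    have e2 : K ≤ K.comap (MulAut.conj y⁻¹).toMonoidHom := by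
      rw [hK, closure_le]
      intro z hz
      have := (key y hy z hz).2
      simpa using this
    have f1 := e1 ha
    have f2 := e2 ha
    rw [mem_comap] at f1 f2
    exact ⟨by simpa using f1, by simpa using f2⟩
  have hnorm : ∀ g : G, (∀ a ∈ K, g * a * g⁻¹ ∈ K) ∧ ∀ a ∈ K, g⁻¹ * a * g ∈ K := by
    intro g
    have hg : g ∈ closure (conjClass x) := by rw [hcl]; trivial
    induction hg using closure_induction with
    | mem y hy => exact ⟨fun a ha => (key2 y hy a ha).1, fun a ha => (key2 y hy a ha).2⟩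
    | one => exact ⟨fun a ha => by simpa using ha, fun a ha => by simpa using ha⟩
    | mul u v _ _ hu hv =>
      refine ⟨fun a ha => ?_, fun a ha => ?_⟩
      · have := hu.1 _ (hv.1 a ha)
        have e : u * v * a * (u * v)⁻¹ = u * (v * a * v⁻¹) * u⁻¹ := by group
        rw [e]; exact this
      · have := hv.2 _ (hu.2 a ha)
        have e : (u * v)⁻¹ * a * (u * v) = v⁻¹ * (u⁻¹ * a * u) * v := by group
        rw [e]; exact this
    | inv u _ hu =>
      refine ⟨fun a ha => ?_, fun a ha => ?_⟩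
      · simpa using hu.2 a ha
      · simpa using hu.1 a ha
  obtain ⟨a, ha⟩ := hAne
  obtain ⟨g, hg⟩ := ha.1
  apply h1
  rw [eq_top_iff, ← hcl]
  have hKH : K ≤ H₁ := by
    rw [hK, closure_le]
    intro z hz
    exact hz.2.1
  refine le_trans ?_ hKH
  rw [closure_le]
  rintro _ ⟨h, rfl⟩
  have haK : a ∈ K := Subgroup.subset_closure ha
  have h5 := (hnorm (h⁻¹ * g)).1 a haK
  have h6 : h⁻¹ * g * a * (h⁻¹ * g)⁻¹ = h⁻¹ * x * h := by
    rw [← hg]; group
  rw [h6] at h5
  exact h5

/-- The conjugacy class of `x` is not covered by two proper subgroups, if it generates `G`. -/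
theorem result : ∀ (G : Type u) [Group G] (x : G), Subgroup.closure (conjClass x) = ⊤ →
    ((2 : ℕ) : ℕ∞) + 1 ≤ gam (conjClass x) := by
  classical
  intro G _ x hcl
  refine le_iInf₂ fun s hs => ?_
  by_contra hlt
  have hlt' : s.card ≤ 2 := by
    by_contra h
    apply hlt
    have : 2 + 1 ≤ s.card := by omega
    exact_mod_cast this
  have hx : x ∈ conjClass x := ⟨1, by simp⟩
  obtain ⟨H₁, hH₁, -⟩ := hs.2 x hx
  by_cases hall : ∀ y ∈ conjClass x, y ∈ H₁
  · exact two hcl H₁ H₁ (hs.1 _ hH₁) (hs.1 _ hH₁) fun y hy => Or.inl (hall y hy)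
  · push Not at hall
    obtain ⟨y, hy, hyn⟩ := hall
    obtain ⟨H₂, hH₂, hy2⟩ := hs.2 y hy
    have hne : H₁ ≠ H₂ := fun h => hyn (h ▸ hy2)
    have hsub : ({H₁, H₂} : Finset (Subgroup G)) = s := by
      apply Finset.eq_of_subset_of_card_le
      · intro H hH
        rw [Finset.mem_insert, Finset.mem_singleton] at hH
        rcases hH with rfl | rfl
        · exact hH₁
        · exact hH₂
      · rw [Finset.card_pair hne]; exact hlt'
    refine two hcl H₁ H₂ (hs.1 _ hH₁) (hs.1 _ hH₂) fun z hz => ?_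
    obtain ⟨H, hH, hzH⟩ := hs.2 z hz
    rw [← hsub, Finset.mem_insert, Finset.mem_singleton] at hH
    rcases hH with rfl | rfl
    · exact Or.inl hzH
    · exact Or.inr hzH

end Pool.Agent.Results.MP_8885f1_al.PrimeTwo
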