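import Pool.Agent.X256.Gam.Final

set_option autoImplicit false

/-!
# Coverings of the conjugacy class of a `p`-element: soluble groups and the soluble radical

For a finite soluble group `G` and a `p`-element `x` with `G = ⟨x^G⟩` every covering of `x^G` by
proper subgroups has at least `p + 1` members.  For an arbitrary finite group `G = ⟨x^G⟩` and a
soluble normal subgroup `R`, `min (p + 1) γ` does not change on passing to `G ⧸ R`.
-/

namespace Pool.Agent.Results.MP_8885f1_al.SolubleRadical

universe u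

/-- The conjugacy class `x^G = {g⁻¹ x g : g ∈ G}`. -/
def conjClass {G : Type u} [Group G] (x : G) : Set G := Set.range fun g : G => g⁻¹ * x * g

/-- `s` is a covering of `X`: a finite set of proper subgroups whose union contains `X`. -/
def IsCovering {G : Type u} [Group G] (s : Finset (Subgroup G)) (X : Set G) : Prop :=
  (∀ H ∈ s, H ≠ ⊤) ∧ ∀ y ∈ X, ∃ H ∈ s, y ∈ H

/-- `γ(X)`: the least number of members of a covering of `X`, and `⊤` if there is none. -/
noncomputable def gam {G : Type u} [Group G] (X : Set G) : ℕ∞ :=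
  ⨅ (s : Finset (Subgroup G)) (_ : IsCovering s X), (s.card : ℕ∞)

theorem gam_le {G : Type u} [Group G] {X : Set G} (s : Finset (Subgroup G))
    (h : IsCovering s X) : gam X ≤ (s.card : ℕ∞) := iInf₂_le s h

theorem cov_iff {G : Type u} [Group G] {s : Finset (Subgroup G)} {x : G} :
    IsCovering s (conjClass x) ↔ (∀ H ∈ s, H ≠ ⊤) ∧ ∀ g : G, ∃ H ∈ s, g * x * g⁻¹ ∈ H := by
  constructor
  · rintro ⟨h1, h2⟩
    refine ⟨h1, fun g => ?_⟩
    apply h2
    exact ⟨g⁻¹, by simp⟩
  · rintro ⟨h1, h2⟩
    refine ⟨h1, ?_⟩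
    rintro _ ⟨g, rfl⟩
    simpa using h2 g⁻¹

theorem ncl {G : Type u} [Group G] {x : G} (h : Subgroup.closure (conjClass x) = ⊤) :
    Subgroup.normalClosure {x} = ⊤ := by
  rw [eq_top_iff, ← h, Subgroup.closure_le]
  rintro _ ⟨g, rfl⟩
  have h1 : x ∈ Subgroup.normalClosure ({x} : Set G) :=
    Subgroup.subset_normalClosure (Set.mem_singleton x)
  have h2 := Subgroup.normalClosure_normal.conj_mem x h1 g⁻¹
  simpa using h2

theorem main_le (G : Type u) [Group G] [Finite G] (R : Subgroup G) [R.Normal]
    [Group.IsSolvable R] (p : ℕ) (hp : p.Prime) (x : G) (hx : ∃ k, orderOf x = p ^ k)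
    (hcl : Subgroup.closure (conjClass x) = ⊤) :
    min ((p : ℕ∞) + 1) (gam (conjClass (QuotientGroup.mk x : G ⧸ R))) ≤ gam (conjClass x) := by
  classical
  refine le_iInf₂ fun s hs => ?_
  obtain ⟨h1, h2⟩ := cov_iff.1 hs
  rcases Nat.lt_or_ge p s.card with hlt | hle
  · refine (min_le_left _ _).trans ?_
    exact_mod_cast hlt
  · refine (min_le_right _ _).trans ?_
    obtain ⟨k, hk⟩ := hx
    obtain ⟨t, ht1, ht2, ht3⟩ := Pool.Agent.X256.Gam.cover_thin _ G R inferInstance inferInstance
      rfl p k hp x (by rw [← hk]; exact pow_orderOf_eq_one x) (ncl hcl) s h1 h2 hle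
    have hsur : Function.Surjective (QuotientGroup.mk' R) := QuotientGroup.mk'_surjective R
    have hcov : IsCovering (t.image (Subgroup.map (QuotientGroup.mk' R)))
        (conjClass (QuotientGroup.mk x : G ⧸ R)) := by
      rw [cov_iff]
      constructor
      · intro H hH htop
        obtain ⟨H', hH', rfl⟩ := Finset.mem_image.1 hH
        have h3 : (H'.map (QuotientGroup.mk' R)).comap (QuotientGroup.mk' R) = H' :=
          Subgroup.comap_map_eq_self (by rw [QuotientGroup.ker_mk']; exact (ht2 H' hH').2)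
        rw [htop, Subgroup.comap_top] at h3
        exact (ht2 H' hH').1 h3.symm
      · intro g
        obtain ⟨g, rfl⟩ := hsur g
        obtain ⟨H, hH, hg⟩ := ht3 g
        refine ⟨H.map (QuotientGroup.mk' R), Finset.mem_image_of_mem _ hH, ?_⟩
        exact ⟨_, hg, rfl⟩
    refine (gam_le _ hcov).trans ?_
    have h4 : (t.image (Subgroup.map (QuotientGroup.mk' R))).card ≤ s.card :=
      Finset.card_image_le.trans ht1
    exact_mod_cast h4

theorem le_quot (G : Type u) [Group G] (R : Subgroup G) [R.Normal] (x : G) :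
    gam (conjClass x) ≤ gam (conjClass (QuotientGroup.mk x : G ⧸ R)) := by
  classical
  refine le_iInf₂ fun s hs => ?_
  obtain ⟨h1, h2⟩ := cov_iff.1 hs
  have hsur : Function.Surjective (QuotientGroup.mk' R) := QuotientGroup.mk'_surjective R
  have hcov : IsCovering (s.image (Subgroup.comap (QuotientGroup.mk' R))) (conjClass x) := by
    rw [cov_iff]
    constructor
    · intro H hH htop
      obtain ⟨H', hH', rfl⟩ := Finset.mem_image.1 hH
      apply h1 H' hH'
      rw [← Subgroup.map_comap_eq_self_of_surjective hsur H', htop, ← MonoidHom.range_eq_map,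
        MonoidHom.range_eq_top.2 hsur]
    · intro g
      obtain ⟨H, hH, hg⟩ := h2 (QuotientGroup.mk' R g)
      exact ⟨H.comap (QuotientGroup.mk' R), Finset.mem_image_of_mem _ hH, hg⟩
  refine (gam_le _ hcov).trans ?_
  have h4 : (s.image (Subgroup.comap (QuotientGroup.mk' R))).card ≤ s.card :=
    Finset.card_image_le
  exact_mod_cast h4

/-- (1) Q2 holds for all finite soluble groups.  (2) For every finite group and every soluble
normal subgroup `R`, Q2 for `(G, x)` is equivalent to Q2 for `(G ⧸ R, xR)`. -/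
theorem result :
    (∀ (G : Type u) [Group G] [Finite G] [Group.IsSolvable G] (p : ℕ), p.Prime →
      ∀ x : G, (∃ k, orderOf x = p ^ k) → Subgroup.closure (conjClass x) = ⊤ →
      (p : ℕ∞) + 1 ≤ gam (conjClass x)) ∧
    (∀ (G : Type u) [Group G] [Finite G] (R : Subgroup G) [R.Normal] [Group.IsSolvable R]
      (p : ℕ), p.Prime → ∀ x : G, (∃ k, orderOf x = p ^ k) →
      Subgroup.closure (conjClass x) = ⊤ →
      min ((p : ℕ∞) + 1) (gam (conjClass x)) =
        min ((p : ℕ∞) + 1) (gam (conjClass (QuotientGroup.mk x : G ⧸ R)))) := by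
  constructor
  · intro G _ _ _ p hp x hx hcl
    refine le_iInf₂ fun s hs => ?_
    obtain ⟨h1, h2⟩ := cov_iff.1 hs
    rcases Nat.lt_or_ge p s.card with hlt | hle
    · exact_mod_cast hlt
    · exfalso
      obtain ⟨k, hk⟩ := hx
      obtain ⟨t, -, ht2, ht3⟩ := Pool.Agent.X256.Gam.cover_thin _ G ⊤ inferInstance inferInstance
        rfl p k hp x (by rw [← hk]; exact pow_orderOf_eq_one x) (ncl hcl) s h1 h2 hle
      obtain ⟨H, hH, -⟩ := ht3 1
      exact (ht2 H hH).1 (top_le_iff.1 (ht2 H hH).2)
  · intro G _ _ R _ _ p hp x hx hcl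
    apply le_antisymm
    · exact min_le_min_left _ (le_quot G R x)
    · exact le_min (min_le_left _ _) (main_le G R p hp x hx hcl)

end Pool.Agent.Results.MP_8885f1_al.SolubleRadical
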